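import Pool.Agent.KS6_83.SI.Main

/-!
# The products `P_m = ∏_{n ≤ m} (p_n + 1)/(p_n - 1)` are rarely integers

The numbers `P_m` increase, so that the integral ones among `P_1, …, P_M` are distinct positive
integers `≤ P_M`; and `P_M` is at most a constant times `(log p_M)^2` by Mertens' theorem.
-/

set_option autoImplicit false

namespace Pool.Agent.Results.MP_f55cd4_nt.RarelyIntegral

open Pool.Agent.KS6_83.SI

open Classical in
/-- The number of the `m ≤ M` such that the product of `(p + 1)/(p - 1)` over the first `m` primes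
is an integer is at most the product for `m = M`; and it is at most `C (log p_M)^2` for an absolute
constant `C`, where `p_M` is the `M`-th prime (`M ≥ 2`; here `M` is written `M + 1`). -/
theorem result :
    (∀ M : ℕ, (((Finset.Icc 1 M).filter fun m => ∃ z : ℤ,
        ∏ i ∈ Finset.range m, ((Nat.nth Nat.Prime i : ℝ) + 1) / ((Nat.nth Nat.Prime i : ℝ) - 1)
          = z).card : ℝ) ≤
      ∏ i ∈ Finset.range M,
        ((Nat.nth Nat.Prime i : ℝ) + 1) / ((Nat.nth Nat.Prime i : ℝ) - 1)) ∧
    ∃ C : ℝ, 0 < C ∧ ∀ M : ℕ, 1 ≤ M →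
      (((Finset.Icc 1 (M + 1)).filter fun m => ∃ z : ℤ,
        ∏ i ∈ Finset.range m, ((Nat.nth Nat.Prime i : ℝ) + 1) / ((Nat.nth Nat.Prime i : ℝ) - 1)
          = z).card : ℝ) ≤ C * Real.log (Nat.nth Nat.Prime M) ^ 2 := by
  refine ⟨fun M => count M, ?_⟩
  obtain ⟨C, hC⟩ := Agent.Erdos456.Mert.mertens_inv
  exact ⟨Real.exp (2 * C + 2), Real.exp_pos _, fun M hM =>
    (count (M + 1)).trans (upper_aux C hC M (nth_ge3 hM))⟩

end Pool.Agent.Results.MP_f55cd4_nt.RarelyIntegral
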